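import Pool.Agent.PQP.StmtsN

/-! Row TIN of squad PQP (MP_5f32e0_gt): a tiny cap. -/

set_option autoImplicit false

open scoped InnerProductSpace Topology ContDiff Manifold
open MeasureTheory Filter Set

noncomputable section

namespace Pool.Agent.PQP.H19

open Pool.Agent.Helper42_Paneitz Pool.Agent.Helper82_Vir Pool.Agent.FLX

/-- the elementary limit -/
theorem exists_time (a B ε : ℝ) (ha : 0 < a) (hε : 0 < ε) :
    ∃ T : ℝ, 1 ≤ T ∧ ∀ t : ℝ, T ≤ t → B * t ^ 2 * Real.exp (-(a * t)) < ε := by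
  have h1 : Tendsto (fun t : ℝ => (a * t) ^ 2 * Real.exp (-(a * t))) atTop (𝓝 0) :=
    (Real.tendsto_pow_mul_exp_neg_atTop_nhds_zero 2).comp
      (tendsto_id.const_mul_atTop ha)
  have h2 : Tendsto (fun t : ℝ => B * t ^ 2 * Real.exp (-(a * t))) atTop (𝓝 0) := by
    have h3 := h1.const_mul (B / a ^ 2)
    rw [mul_zero] at h3
    refine h3.congr fun t => ?_
    field_simp
  have h3 : ∀ᶠ t in atTop, B * t ^ 2 * Real.exp (-(a * t)) < ε :=
    h2.eventually (gt_mem_nhds hε)
  obtain ⟨T, hT⟩ := eventually_atTop.1 h3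
  exact ⟨max T 1, le_max_right _ _, fun t ht => hT t ((le_max_left _ _).trans ht)⟩

theorem measurableSet_cap (z : S4) (u : ℝ) : MeasurableSet (cap z u) := by
  refine IsClosed.measurableSet ?_
  refine isClosed_le ?_ continuous_const
  exact continuous_const.sub (continuous_const.inner continuous_subtype_val)

theorem tin (hPSF : PsfStmt) (hABD : AbdStmt) (hJEN : JenStmt) (hWTL : WtlStmt) : TinStmt := by
  intro ψ N hψ ε hε
  obtain ⟨c₂, η, hc₂, _, hfar⟩ := hPSF ψ N hψ ε hε
  obtain ⟨C, _, hC, _, hA⟩ := hABD ψ N hψ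
  obtain ⟨CJ, hCJ, hJ⟩ := hJEN 1 (1 / 4) one_pos (by norm_num) (by norm_num)
  obtain ⟨_, hSmW, _⟩ := hWTL ψ hψ.1
  obtain ⟨T, hT1, hT⟩ := exists_time (c₂ / 2) (C * CJ) ε (by positivity) hε
  refine ⟨c₂ / 8, T, by positivity, by linarith, fun t f ht hf hmas => ?_⟩
  obtain ⟨hD, A, hApos, hfA⟩ := hf
  have ht1 : 1 ≤ t := hT1.trans ht
  have hAle : A ≤ C * t ^ 2 := (hA t A f ht1 hD hApos hfA).1
  by_contra hcon
  push Not at hcon
  set E : Set S4 := (cap N ε)ᶜ with hE
  have hEm : MeasurableSet E := (measurableSet_cap N ε).compl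
  have hEmem : ∀ x : S4, x ∈ E ↔ ε < 1 - ⟪(N : E5), (x : E5)⟫_ℝ := by
    intro x
    rw [hE, mem_compl_iff, cap, mem_setOf_eq, not_le]
  have hWc : Continuous (Wt ψ t) := continuous_of_sm (hSmW t).1
  have hWpos : ∀ x, 0 < Wt ψ t x := (hSmW t).2
  have hexpc : Continuous fun x => Real.exp (4 * 1 * pot f x) := by
    have h1 : (fun x => Real.exp (4 * 1 * pot f x)) = fun x => f x / (A * Wt ψ t x) := by
      funext x
      have := hfA x
      have h2 : A * Wt ψ t x ≠ 0 := (mul_pos hApos (hWpos x)).ne'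
      rw [eq_div_iff h2, mul_one, mul_comm]
      exact this.symm
    rw [h1]
    exact hD.1.div (continuous_const.mul hWc) fun x => (mul_pos hApos (hWpos x)).ne'
  have hJE := hJ f E (Real.exp (-(c₂ / 8 * t))) hD hEm (Real.exp_pos _)
    (Real.exp_le_one_iff.2 (by
      have : 0 ≤ c₂ / 8 * t := by positivity
      linarith)) (fun x hx => hcon x ((hEmem x).1 hx))
  have hpow : Real.exp (-(c₂ / 8 * t)) ^ (-(4 * 1 : ℝ)) = Real.exp (c₂ / 2 * t) := by
    rw [← Real.exp_mul]
    congr 1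
    ring
  rw [hpow] at hJE
  -- the mass of E
  have hfi : Integrable f sig := integrable_cont hD.1
  have hmE : ∫ x in E, f x ∂sig = 1 - mas f N ε := by
    have h1 := integral_add_compl (measurableSet_cap N ε) hfi
    rw [hD.2.2] at h1
    rw [hE, mas]
    linarith
  have hle : ∫ x in E, f x ∂sig ≤
      ∫ x in E, A * Real.exp (-(c₂ * t)) * Real.exp (4 * 1 * pot f x) ∂sig := by
    refine setIntegral_mono_on hfi.integrableOn
      ((integrable_cont hexpc).const_mul _).integrableOn hEm fun x hx => ?_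
    have h1 : c₂ ≤ ψ x := (hfar x ((hEmem x).1 hx).le).1
    rw [hfA x, mul_one]
    have h2 : Wt ψ t x ≤ Real.exp (-(c₂ * t)) := by
      rw [Wt]
      refine Real.exp_le_exp.2 ?_
      have : c₂ * t ≤ t * ψ x := by nlinarith
      linarith
    have h3 : 0 ≤ Real.exp (4 * pot f x) := (Real.exp_pos _).le
    exact mul_le_mul_of_nonneg_right (mul_le_mul_of_nonneg_left h2 hApos.le) h3
  rw [integral_const_mul] at hle
  have h4 : 1 - mas f N ε ≤ C * CJ * t ^ 2 * Real.exp (-(c₂ / 2 * t)) := by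
    rw [← hmE]
    calc ∫ x in E, f x ∂sig ≤ A * Real.exp (-(c₂ * t)) *
          ∫ x in E, Real.exp (4 * 1 * pot f x) ∂sig := hle
      _ ≤ (C * t ^ 2) * Real.exp (-(c₂ * t)) * (CJ * Real.exp (c₂ / 2 * t)) := by
          have h5 : 0 ≤ ∫ x in E, Real.exp (4 * 1 * pot f x) ∂sig :=
            setIntegral_nonneg hEm fun x _ => (Real.exp_pos _).le
          have h6 : 0 ≤ Real.exp (-(c₂ * t)) := (Real.exp_pos _).le
          gcongr
      _ = C * CJ * t ^ 2 * (Real.exp (-(c₂ * t)) * Real.exp (c₂ / 2 * t)) := by ring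
      _ = C * CJ * t ^ 2 * Real.exp (-(c₂ / 2 * t)) := by
          rw [← Real.exp_add]
          congr 2
          ring
  exact absurd hmas (not_lt.2 (h4.trans (hT t ht).le))

end Pool.Agent.PQP.H19
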